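import Pool.Agent.L7h10.TwoNear

/-!
# The 2-near perfect numbers `2 ^ k p ^ m`, `m ≥ 3`

Let `k ≥ 1`, `m ≥ 3` and let `p` be an odd prime. We show that `2 ^ k p ^ m` is 2-near perfect if and
only if `m = 3` and `p = 2 ^ (k + 1) - 1` (a Mersenne prime; the omitted divisors are `p` and `p ^ 2`).
So for every `m ≥ 4` there is no such number, and for `m = 3` there are infinitely many if and only if
there are infinitely many Mersenne primes: the statement of the question is equivalent to the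
finiteness of the set of the Mersenne primes.

Proof.  Let `N = 2 ^ (k + 1)` and `s = 1 + p + ... + p ^ (m - 1)`. The equation `σ(n) = 2 n + d₁ + d₂`
is `(N - p) s = 1 + d₁ + d₂`. The cases are according to the exponents of `p` in `d₁` and `d₂`.
-/

set_option autoImplicit false

open Finset Pool.Agent.L7h10.TwoNear

namespace Pool.Agent.Results.MP_24a6f7_nt.MersenneClassification

/-- `n` is 2-near perfect: the sum of its divisors is `2 n + d₁ + d₂` for two distinct divisors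
`d₁`, `d₂` of `n`. -/
def TwoNearPerfect (n : ℕ) : Prop :=
  0 < n ∧ ∃ d₁ d₂ : ℕ, d₁ ∣ n ∧ d₂ ∣ n ∧ d₁ ≠ d₂ ∧ ∑ d ∈ n.divisors, d = 2 * n + d₁ + d₂

theorem sum_div {p : ℕ} (hp : p.Prime) (hp2 : p ≠ 2) (k m : ℕ) :
    ∑ d ∈ (2 ^ k * p ^ m).divisors, d =
      (∑ i ∈ range (k + 1), 2 ^ i) * ∑ i ∈ range (m + 1), p ^ i := by
  have hc : Nat.Coprime (2 ^ k) (p ^ m) := by
    apply Nat.Coprime.pow
    exact (Nat.coprime_primes Nat.prime_two hp).2 (Ne.symm hp2)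
  rw [Nat.Coprime.sum_divisors_mul hc, Nat.sum_divisors_prime_pow Nat.prime_two,
    Nat.sum_divisors_prime_pow hp]

theorem dvd_form {p : ℕ} (hp : p.Prime) {k m d : ℕ} (h : d ∣ 2 ^ k * p ^ m) :
    ∃ i j : ℕ, i ≤ k ∧ j ≤ m ∧ d = 2 ^ i * p ^ j := by
  obtain ⟨x, y, hx, hy, rfl⟩ := (Nat.dvd_mul).1 h
  obtain ⟨i, hi, rfl⟩ := (Nat.dvd_prime_pow Nat.prime_two).1 hx
  obtain ⟨j, hj, rfl⟩ := (Nat.dvd_prime_pow hp).1 hy
  exact ⟨i, j, hi, hj, rfl⟩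

/-- the core, for ordered exponents -/
theorem core {p : ℕ} (hp3 : 3 ≤ p) (hodd : p % 2 = 1) {k n a₁ a₂ b₁ b₂ : ℕ} (hk : 1 ≤ k)
    (ha₁ : a₁ ≤ k) (ha₂ : a₂ ≤ k) (hb₁ : b₁ ≤ n + 3) (hb : b₂ ≤ b₁)
    (hne : (2 : ℤ) ^ a₁ * (p : ℤ) ^ b₁ ≠ 2 ^ a₂ * (p : ℤ) ^ b₂)
    (h : ((2 : ℤ) ^ (k + 1) - p) * (∑ i ∈ range (n + 3), (p : ℤ) ^ i) =
      1 + 2 ^ a₁ * (p : ℤ) ^ b₁ + 2 ^ a₂ * (p : ℤ) ^ b₂) :
    n = 0 ∧ (2 : ℤ) ^ (k + 1) = p + 1 := by
  obtain ⟨q, hq⟩ : ∃ q : ℤ, q = (p : ℤ) := ⟨_, rfl⟩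
  obtain ⟨a, ha⟩ : ∃ a : ℤ, a = ∑ i ∈ range (n + 1), q ^ i := ⟨_, rfl⟩
  obtain ⟨P, hP⟩ : ∃ P : ℤ, P = q ^ (n + 1) := ⟨_, rfl⟩
  obtain ⟨N, hN⟩ : ∃ N : ℤ, N = 2 ^ (k + 1) := ⟨_, rfl⟩
  obtain ⟨V₁, hV₁⟩ : ∃ V : ℤ, V = 2 ^ a₁ := ⟨_, rfl⟩
  obtain ⟨V₂, hV₂⟩ : ∃ V : ℤ, V = 2 ^ a₂ := ⟨_, rfl⟩
  have hs : ∑ i ∈ range (n + 3), q ^ i = a + P + P * q := by
    rw [sum_range_succ, sum_range_succ, ← ha, hP]
    ring
  rw [← hq, hs, ← hN, ← hV₁, ← hV₂] at h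
  rw [← hq, ← hN]
  rw [← hq, ← hV₁, ← hV₂] at hne
  have hq3 : 3 ≤ q := by rw [hq]; exact_mod_cast hp3
  have hqo : q % 2 = 1 := by omega
  have hPa : q * a + 1 = P + a := by
    have := geom_sum_mul q (n + 1)
    rw [← ha, ← hP] at this
    linear_combination this
  have hqP : q ≤ P := by
    rw [hP]
    calc q = q ^ 1 := (pow_one q).symm
      _ ≤ q ^ (n + 1) := pow_le_pow_right₀ (by linarith) (by omega)
  have ha1 : 1 ≤ a := by
    rw [ha, sum_range_succ']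
    have : 0 ≤ ∑ i ∈ range n, q ^ (i + 1) := sum_nonneg fun i _ => by positivity
    rw [pow_zero]
    linarith
  have hna : 1 ≤ n → q + 1 ≤ a := by
    intro hn
    obtain ⟨n', rfl⟩ := Nat.exists_eq_add_of_le hn
    have : a = ∑ i ∈ range (n' + 2), q ^ i := by rw [ha]; congr 2; ring
    rw [this, sum_range_succ', sum_range_succ']
    have : 0 ≤ ∑ i ∈ range n', q ^ (i + 1 + 1) := sum_nonneg fun i _ => by positivity
    rw [pow_zero, zero_add, pow_one]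
    linarith
  have hnP : 1 ≤ n → q ^ 2 ≤ P := by
    intro hn
    rw [hP]
    exact pow_le_pow_right₀ (by linarith) (by omega)
  have hV₁1 : 1 ≤ V₁ := by rw [hV₁]; exact one_le_pow₀ (by norm_num)
  have hV₂1 : 1 ≤ V₂ := by rw [hV₂]; exact one_le_pow₀ (by norm_num)
  have hNt : ∀ {V : ℤ} {e : ℕ}, e ≤ k → V = 2 ^ e → ∃ t, N = V * (2 * t) ∧ 2 * V ≤ N := by
    intro V e he hV
    obtain ⟨l, hl⟩ := Nat.exists_eq_add_of_le he
    refine ⟨2 ^ l, ?_, ?_⟩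
    · rw [hN, hV, hl]; ring
    · rw [hN, hV, pow_succ, mul_comm]
      exact mul_le_mul_of_nonneg_right (pow_le_pow_right₀ (by norm_num) he) (by norm_num)
  obtain ⟨t₁, ht₁, e₁⟩ := hNt ha₁ hV₁
  obtain ⟨t₂, ht₂, e₂⟩ := hNt ha₂ hV₂
  have hN4 : N % 4 = 0 := by
    obtain ⟨k', rfl⟩ := Nat.exists_eq_add_of_le hk
    have : N = 4 * 2 ^ k' := by rw [hN]; ring
    omega
  have hq0 : 0 < q := by linarith
  have hP0 : 0 < P := by linarith
  have hs0 : 0 < a + P + P * q := by positivity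
  have hNq : q + 1 ≤ N := by
    have h1 : 0 < (N - q) * (a + P + P * q) := by
      rw [h]
      have h1 : 0 < V₁ * q ^ b₁ := by positivity
      have h2 : 0 < V₂ * q ^ b₂ := by positivity
      linarith
    have := (pos_iff_pos_of_mul_pos h1).2 hs0
    linarith
  have hsmall : ∀ {V : ℤ} {b : ℕ}, 1 ≤ V → 2 * V ≤ N → b ≤ n + 1 → 2 * (V * q ^ b) ≤ N * P := by
    intro V b hV1 hV hb
    have h1 : 2 * V * q ^ b ≤ N * q ^ b := mul_le_mul_of_nonneg_right hV (by positivity)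
    have h2 : q ^ b ≤ P := by
      rw [hP]
      exact pow_le_pow_right₀ (by linarith) hb
    have h3 : N * q ^ b ≤ N * P := mul_le_mul_of_nonneg_left h2 (by linarith)
    linarith
  rcases Nat.lt_or_ge b₁ (n + 2) with hb1 | hb1
  · exact (case0 hq3 hqP ha1 hNq (hsmall hV₁1 e₁ (by omega)) (hsmall hV₂1 e₂ (by omega)) hne h).elim
  rcases Nat.lt_or_ge b₁ (n + 3) with hb1' | hb1'
  · have hb1e : b₁ = n + 2 := by omega
    have hpe : q ^ b₁ = P * q := by rw [hb1e, hP]; ring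
    rw [hpe] at h hne
    rcases Nat.lt_or_ge b₂ (n + 2) with hb2 | hb2
    · rcases Nat.eq_zero_or_pos b₂ with h0 | h0
      · rw [h0, pow_zero, mul_one] at h
        exact (case1c hq3 hqo hqP ha1 hP hPa hV₂1 hN4 hNq e₁ e₂ h).elim
      · obtain ⟨b, rfl⟩ := Nat.exists_eq_add_of_le' h0
        exact case1b hq3 hqP ha1 hP hPa hV₁1 hV₂1 hna hNq e₁ e₂ (by omega) h
    · have hb2e : b₂ = n + 2 := by omega
      have hpe2 : q ^ b₂ = P * q := by rw [hb2e, hP]; ring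
      rw [hpe2] at h hne
      have hVne : V₁ ≠ V₂ := fun hV => hne (by rw [hV])
      refine (case1a hq3 hqP ha1 hP hPa hNq ?_ h).elim
      rcases lt_or_gt_of_ne hVne with h1 | h1 <;> linarith
  · have hb1e : b₁ = n + 3 := by omega
    have hpe : q ^ b₁ = P * q * q := by rw [hb1e, hP]; ring
    rw [hpe] at h hne
    rcases Nat.lt_or_ge b₂ (n + 2) with hb2 | hb2
    · exact (case2a hq3 hqo hqP ha1 hP hPa hV₁1 hV₂1 ht₁ (by omega) e₂ (by omega) hV₁ hV₂ h).elim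
    rcases Nat.lt_or_ge b₂ (n + 3) with hb2' | hb2'
    · have hb2e : b₂ = n + 2 := by omega
      have hpe2 : q ^ b₂ = P * q := by rw [hb2e, hP]; ring
      rw [hpe2] at h
      exact (case2b hq3 hqo hqP ha1 hP hPa hnP hV₁1 hV₂1 ht₁ e₂ hV₁ hV₂ h).elim
    · have hb2e : b₂ = n + 3 := by omega
      have hpe2 : q ^ b₂ = P * q * q := by rw [hb2e, hP]; ring
      rw [hpe2] at h hne
      have hVne : V₁ ≠ V₂ := fun hV => hne (by rw [hV])
      rcases lt_or_gt_of_ne hVne with h1 | h1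
      · exact (case2c hq3 hqo hqP ha1 hPa hV₂1 hV₁1 ht₂ hV₂ hV₁ h1 (by linarith)).elim
      · exact (case2c hq3 hqo hqP ha1 hPa hV₁1 hV₂1 ht₁ hV₁ hV₂ h1 h).elim

theorem iff_mersenne {k p m : ℕ} (hk : 1 ≤ k) (hp : p.Prime) (hp2 : p ≠ 2) (hm : 3 ≤ m) :
    TwoNearPerfect (2 ^ k * p ^ m) ↔ m = 3 ∧ p = 2 ^ (k + 1) - 1 := by
  obtain ⟨n, rfl⟩ := Nat.exists_eq_add_of_le' hm
  have hp3 : 3 ≤ p := by
    have := hp.two_le
    omega
  have hodd : p % 2 = 1 := by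
    rcases hp.eq_two_or_odd with h | h
    · exact absurd h hp2
    · exact h
  have h2k : (∑ i ∈ range (k + 1), 2 ^ i) + 1 = 2 ^ (k + 1) := by
    have := Nat.geomSum_eq (le_refl 2) (k + 1)
    have h1 : 1 ≤ 2 ^ (k + 1) := Nat.one_le_two_pow
    rw [this]
    omega
  have hpos : 0 < 2 ^ k * p ^ (n + 3) := by
    have := hp.pos
    positivity
  constructor
  · rintro ⟨-, d₁, d₂, h1, h2, hne, hsum⟩
    obtain ⟨a₁, b₁, ha₁, hb₁, rfl⟩ := dvd_form hp h1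
    obtain ⟨a₂, b₂, ha₂, hb₂, rfl⟩ := dvd_form hp h2
    rw [sum_div hp hp2] at hsum
    have hneZ : (2 : ℤ) ^ a₁ * (p : ℤ) ^ b₁ ≠ 2 ^ a₂ * (p : ℤ) ^ b₂ := by
      intro h
      apply hne
      exact_mod_cast h
    have hZ : ((2 : ℤ) ^ (k + 1) - p) * (∑ i ∈ range (n + 3), (p : ℤ) ^ i) =
        1 + 2 ^ a₁ * (p : ℤ) ^ b₁ + 2 ^ a₂ * (p : ℤ) ^ b₂ := by
      have e1 : (∑ i ∈ range (k + 1), (2 : ℤ) ^ i) + 1 = 2 ^ (k + 1) := by exact_mod_cast h2k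
      have e2 : (∑ i ∈ range (k + 1), (2 : ℤ) ^ i) * (∑ i ∈ range (n + 3 + 1), (p : ℤ) ^ i) =
          2 * (2 ^ k * (p : ℤ) ^ (n + 3)) + 2 ^ a₁ * (p : ℤ) ^ b₁ + 2 ^ a₂ * (p : ℤ) ^ b₂ := by
        exact_mod_cast hsum
      have e3 : ∑ i ∈ range (n + 3 + 1), (p : ℤ) ^ i =
          (∑ i ∈ range (n + 3), (p : ℤ) ^ i) + (p : ℤ) ^ (n + 3) := sum_range_succ _ _
      have e4 : (∑ i ∈ range (n + 3), (p : ℤ) ^ i) * ((p : ℤ) - 1) = (p : ℤ) ^ (n + 3) - 1 :=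
        geom_sum_mul _ _
      rw [e3] at e2
      have e5 : (∑ i ∈ range (k + 1), (2 : ℤ) ^ i) = 2 ^ (k + 1) - 1 := by linarith
      rw [e5] at e2
      have e6 : (2 : ℤ) ^ (k + 1) = 2 * 2 ^ k := by ring
      rw [e6] at e2 ⊢
      linear_combination e2 - e4
    have hfin : n = 0 ∧ (2 : ℤ) ^ (k + 1) = p + 1 := by
      rcases le_total b₂ b₁ with hb | hb
      · exact core hp3 hodd hk ha₁ ha₂ hb₁ hb hneZ hZ
      · exact core hp3 hodd hk ha₂ ha₁ hb₂ hb (Ne.symm hneZ) (by rw [hZ]; ring)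
    obtain ⟨hn, h2p⟩ := hfin
    have h2p' : 2 ^ (k + 1) = p + 1 := by exact_mod_cast h2p
    exact ⟨by omega, by omega⟩
  · rintro ⟨hn, hpk⟩
    have hn0 : n = 0 := by omega
    subst hn0
    have h2p : 2 ^ (k + 1) = p + 1 := by
      have : 1 ≤ 2 ^ (k + 1) := Nat.one_le_two_pow
      omega
    refine ⟨hpos, p, p ^ 2, ?_, ?_, ?_, ?_⟩
    · exact (dvd_pow_self p (by norm_num)).mul_left _
    · exact (pow_dvd_pow p (by norm_num)).mul_left _
    · intro h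
      have : p * 1 = p * p := by rw [mul_one, ← sq]; exact h
      have := Nat.eq_of_mul_eq_mul_left hp.pos this
      omega
    · rw [sum_div hp hp2]
      have e1 : (∑ i ∈ range (k + 1), 2 ^ i) = p := by omega
      have e2 : 2 * (2 ^ k * p ^ (0 + 3)) = (p + 1) * p ^ 3 := by
        rw [← h2p]
        ring
      rw [e1, e2]
      simp only [sum_range_succ, sum_range_zero]
      ring

/-- **Theorem.** For `k ≥ 1`, `m ≥ 3` and an odd prime `p` the number `2 ^ k p ^ m` is 2-near perfect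
if and only if `m = 3` and `p = 2 ^ (k + 1) - 1`. Consequently, the statement that for every `m ≥ 3` there
are only finitely many 2-near perfect numbers `2 ^ k p ^ m` is true if and only if there are only
finitely many Mersenne primes. -/
theorem result :
    (∀ k p m : ℕ, 1 ≤ k → p.Prime → p ≠ 2 → 3 ≤ m →
      (TwoNearPerfect (2 ^ k * p ^ m) ↔ m = 3 ∧ p = 2 ^ (k + 1) - 1)) ∧
    ((∀ m : ℕ, 3 ≤ m → {n : ℕ | TwoNearPerfect n ∧
        ∃ k p : ℕ, 1 ≤ k ∧ p.Prime ∧ p ≠ 2 ∧ n = 2 ^ k * p ^ m}.Finite) ↔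
      {p : ℕ | p.Prime ∧ ∃ q : ℕ, p = 2 ^ q - 1}.Finite) := by
  refine ⟨fun k p m hk hp hp2 hm => iff_mersenne hk hp hp2 hm, ?_, ?_⟩
  · intro h
    refine ((h 3 le_rfl).biUnion (t := fun n => (n.primeFactors : Set ℕ))
      fun n _ => Finset.finite_toSet _).subset ?_
    rintro p ⟨hp, q, hq⟩
    have hq2 : 2 ≤ q := by
      by_contra hcon
      have : q = 0 ∨ q = 1 := by omega
      have := hp.two_le
      rcases ‹q = 0 ∨ q = 1› with rfl | rfl <;> norm_num at hq <;> omega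
    obtain ⟨k, rfl⟩ := Nat.exists_eq_add_of_le' hq2
    have hp2 : p ≠ 2 := by
      intro h2
      have : 2 ^ (k + 2) = 2 * (2 * 2 ^ k) := by ring
      omega
    simp only [Set.mem_iUnion, Finset.mem_coe]
    refine ⟨2 ^ (k + 1) * p ^ 3, ⟨(iff_mersenne (by omega) hp hp2 le_rfl).2 ⟨rfl, hq⟩, k + 1, p,
      by omega, hp, hp2, rfl⟩, ?_⟩
    rw [Nat.mem_primeFactors]
    refine ⟨hp, (dvd_pow_self p (by norm_num)).mul_left _, ?_⟩
    have := hp.pos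
    positivity
  · intro h m hm
    refine (h.image fun p => (p + 1) / 2 * p ^ 3).subset ?_
    rintro n ⟨h1, k, p, hk, hp, hp2, rfl⟩
    obtain ⟨hm3, hpk⟩ := (iff_mersenne hk hp hp2 hm).1 h1
    refine ⟨p, ⟨hp, k + 1, hpk⟩, ?_⟩
    have h2 : p + 1 = 2 * 2 ^ k := by
      have h3 : 2 ^ (k + 1) = 2 * 2 ^ k := by ring
      have h4 : 1 ≤ 2 ^ k := Nat.one_le_two_pow
      omega
    simp only
    rw [h2, Nat.mul_div_cancel_left _ (by norm_num), hm3]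

end Pool.Agent.Results.MP_24a6f7_nt.MersenneClassification
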